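import Pool.Agent.H91.CA.Main
import Pool.Agent.H91.CB.Gen

namespace Pool.Agent.Results.MP_8ba198_nt.AllLargeTriples

/-- The solutions `(x, y, z)` of `a^x + b^y = c^z` in positive integers. -/
def solutions (a b c : ℕ) : Set (ℕ × ℕ × ℕ) :=
  {t | 0 < t.1 ∧ 0 < t.2.1 ∧ 0 < t.2.2 ∧ a ^ t.1 + b ^ t.2.1 = c ^ t.2.2}

/-- `N(a,b,c)`, the number (possibly infinite) of solutions. -/
noncomputable def numSol (a b c : ℕ) : ℕ∞ := (solutions a b c).encard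

/-- There is a constant `A` such that for pairwise distinct primes `a, b, c` with `max(a,b,c) > A`,
if `a^x + b^y = c^z` has more than one solution in positive integers, then `{a, b} = {2, p}`,
`c = 4^i + p^(2j)` with `i, j ≥ 1`, `p ≡ 1` or `17 (mod 24)`, and if `p ≡ 1 (mod 24)` then
`p^(2j) < 4^i (log log c)^3`. -/
theorem result : ∃ A : ℝ, ∀ a b c : ℕ, a.Prime → b.Prime → c.Prime → a ≠ b → a ≠ c → b ≠ c →
    A < (max (max a b) c : ℕ) → 1 < numSol a b c →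
      ∃ p i j : ℕ, ((a = 2 ∧ b = p) ∨ (a = p ∧ b = 2)) ∧ 0 < i ∧ 0 < j ∧
        c = 4 ^ i + p ^ (2 * j) ∧ (p % 24 = 1 ∨ p % 24 = 17) ∧
        (p % 24 = 1 → (p : ℝ) ^ (2 * j) < 4 ^ i * (Real.log (Real.log c)) ^ 3) := by
  obtain ⟨T1, hT1⟩ := Pool.Agent.H91.CA.core
  obtain ⟨T2, hT2⟩ := Pool.Agent.H91.CB.general
  refine ⟨Real.exp (max T1 T2), fun a b c ha hb hc hab hac hbc hA hlt => ?_⟩
  obtain ⟨p, hp, hsh, i, j, x, y, z, hi, hj, hform, h24, hl, hx, hy, hz, h, hpar⟩ :=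
    hT2 (max T1 T2) (le_max_right _ _) a b c ha hb hc hab hac hbc hA hlt
  refine ⟨p, i, j, hsh, hi, hj, hform, h24, fun h1 => ?_⟩
  obtain ⟨hx2, hz2⟩ := hpar h1
  exact hT1 p c i j x y z hp hc h1 hi hj hform hx2 hx hy hz2 h (le_trans (le_max_left _ _) hl)

end Pool.Agent.Results.MP_8ba198_nt.AllLargeTriples
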