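import Pool.Agent.H12.WF.Final
import Pool.Agent.H12.WF.Cnt

namespace Pool.Agent.Results.MP_8ba198_nt.FewExceptions

/-- The solutions `(x, y, z)` of `a^x + b^y = c^z` in positive integers. -/
def solutions (a b c : ℕ) : Set (ℕ × ℕ × ℕ) :=
  {t | 0 < t.1 ∧ 0 < t.2.1 ∧ 0 < t.2.2 ∧ a ^ t.1 + b ^ t.2.1 = c ^ t.2.2}

/-- `N(a,b,c)`, the number (possibly infinite) of solutions. -/
noncomputable def numSol (a b c : ℕ) : ℕ∞ := (solutions a b c).encard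

/-- For all large `X` at most `(log X)^13` ordered triples `(a, b, c)` of pairwise distinct primes
`≤ X` are such that `a^x + b^y = c^z` has more than one solution in positive integers. -/
theorem result : ∃ X₀ : ℝ, ∀ X : ℕ, X₀ ≤ X →
    ({t : ℕ × ℕ × ℕ | t.1.Prime ∧ t.2.1.Prime ∧ t.2.2.Prime ∧ t.1 ≠ t.2.1 ∧ t.1 ≠ t.2.2 ∧
      t.2.1 ≠ t.2.2 ∧ t.1 ≤ X ∧ t.2.1 ≤ X ∧ t.2.2 ≤ X ∧
      1 < numSol t.1 t.2.1 t.2.2}.ncard : ℝ) ≤ (Real.log X) ^ 13 := by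
  obtain ⟨A, hA⟩ := Pool.Agent.H12.WF.wf_final
  obtain ⟨X₀, hX₀⟩ := Pool.Agent.H12.WF.wf_count
    {t : ℕ × ℕ × ℕ | t.1.Prime ∧ t.2.1.Prime ∧ t.2.2.Prime ∧ t.1 ≠ t.2.1 ∧ t.1 ≠ t.2.2 ∧
      t.2.1 ≠ t.2.2 ∧ 1 < numSol t.1 t.2.1 t.2.2} A (by
      rintro a b c ⟨ha, hb, hc, hab, hac, hbc, hlt⟩ hlarge
      obtain ⟨p, i, j, hp, hsh, hi, hj, hform, h24, ⟨n, hn0, hn, hdv⟩, _⟩ :=
        hA a b c ha hb hc hab hac hbc hlarge hlt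
      have := hp.two_le
      exact ⟨p, i, j, n, hp, by omega, hsh, hform, hn0, hn, hdv⟩)
  refine ⟨X₀, fun X hX => ?_⟩
  refine le_trans (le_of_eq ?_) (hX₀ X hX)
  congr 2
  ext t
  simp only [Set.mem_ofPred_eq]
  tauto

end Pool.Agent.Results.MP_8ba198_nt.FewExceptions
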