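import Pool.Agent.H12.WF.Final

namespace Pool.Agent.Results.MP_8ba198_nt.WieferichPrimes

/-- The solutions `(x, y, z)` of `a^x + b^y = c^z` in positive integers. -/
def solutions (a b c : ℕ) : Set (ℕ × ℕ × ℕ) :=
  {t | 0 < t.1 ∧ 0 < t.2.1 ∧ 0 < t.2.2 ∧ a ^ t.1 + b ^ t.2.1 = c ^ t.2.2}

/-- `N(a,b,c)`, the number (possibly infinite) of solutions. -/
noncomputable def numSol (a b c : ℕ) : ℕ∞ := (solutions a b c).encard

/-- There is `A` such that for pairwise distinct primes `a, b, c` with `max(a,b,c) > A` and more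
than one solution in positive integers of `a^x + b^y = c^z`: `{a, b} = {2, p}`,
`c = 4^i + p^(2j)`, `i, j ≥ 1`, `p ≡ 1` or `17 (mod 24)`, `p` divides `2^n - 1` for some
`1 ≤ n ≤ 2 (log c)^5`; and if `p ≡ 1 (mod 24)` then `p^(2j)` divides `2^(p-1) - 1` (so `p` is a
Wieferich prime), and it divides `2^n - 1` for some `1 ≤ n ≤ (log p)^4`. -/
theorem result : ∃ A : ℝ, ∀ a b c : ℕ, a.Prime → b.Prime → c.Prime → a ≠ b → a ≠ c → b ≠ c →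
    A < (max (max a b) c : ℕ) → 1 < numSol a b c →
      ∃ p i j : ℕ, ((a = 2 ∧ b = p) ∨ (a = p ∧ b = 2)) ∧ 0 < i ∧ 0 < j ∧
        c = 4 ^ i + p ^ (2 * j) ∧ (p % 24 = 1 ∨ p % 24 = 17) ∧
        (∃ n : ℕ, 0 < n ∧ (n : ℝ) ≤ 2 * (Real.log c) ^ 5 ∧ p ∣ 2 ^ n - 1) ∧
        (p % 24 = 1 → p ^ (2 * j) ∣ 2 ^ (p - 1) - 1 ∧
          ∃ n : ℕ, 0 < n ∧ (n : ℝ) ≤ (Real.log p) ^ 4 ∧ p ^ (2 * j) ∣ 2 ^ n - 1) := by
  obtain ⟨A, hA⟩ := Pool.Agent.H12.WF.wf_final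
  refine ⟨A, fun a b c ha hb hc hab hac hbc hlarge hlt => ?_⟩
  obtain ⟨p, i, j, _, hrest⟩ := hA a b c ha hb hc hab hac hbc hlarge hlt
  exact ⟨p, i, j, hrest⟩

end Pool.Agent.Results.MP_8ba198_nt.WieferichPrimes
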